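import Pool.Agent.H808R3.QH.Len
import Pool.Agent.H808R3.QH.Aff

set_option autoImplicit false

namespace Pool.Agent.Results.MP_afcf00_al.QuasiIsometryNotAffine

open Pool.Agent.H808R3.QH

variable {n : ℕ}

/-- a unit vector of `V₂` -/
def u : ImH := ⟨⟨0, 1, 0, 0⟩, rfl⟩

lemma norm_u : ‖u‖ = 1 := by
  have h : ‖(u : Quaternion ℝ)‖ * ‖(u : Quaternion ℝ)‖ = 1 := by
    rw [← Quaternion.normSq_eq_norm_mul_self, Quaternion.normSq_def']
    simp [u]
  have h1 : ‖u‖ = ‖(u : Quaternion ℝ)‖ := rfl
  rw [h1]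
  nlinarith [norm_nonneg (u : Quaternion ℝ)]

/-- The quasi-isometry `x ↦ x · exp(ρ(x) u)`, with `ρ(x)` the Carnot distance of `x` to `1`. -/
noncomputable def F (x : N n) : N n := x * cen (carnotLen x • u)

lemma cen_inv (z : ImH) : (cen z : N n)⁻¹ = cen (-z) := by
  apply N.ext <;> simp [cen]

lemma len_cen_smul (hn : 1 ≤ n) (s : ℝ) : carnotLen (cen (s • u) : N n) ≤ 3 * Real.sqrt |s| := by
  have := carnotLen_cen_le hn (s • u)
  rwa [norm_smul, norm_u, mul_one, Real.norm_eq_abs] at this

lemma F_diff (x y : N n) : (F x)⁻¹ * F y = (x⁻¹ * y) * cen ((carnotLen y - carnotLen x) • u) := by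
  unfold F
  rw [mul_inv_rev, cen_inv]
  calc cen (-(carnotLen x • u)) * x⁻¹ * (y * cen (carnotLen y • u))
      = x⁻¹ * (cen (-(carnotLen x • u)) * y) * cen (carnotLen y • u) := by
        rw [cen_comm]; simp only [mul_assoc]
    _ = x⁻¹ * y * (cen (-(carnotLen x • u)) * cen (carnotLen y • u)) := by
        rw [cen_comm]; simp only [mul_assoc]
    _ = _ := by
        rw [cen_mul]
        congr 2
        module

lemma len_sub_le (hn : 1 ≤ n) (x y : N n) : |carnotLen y - carnotLen x| ≤ carnotDist x y := by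
  unfold carnotDist
  rw [abs_le]
  constructor
  · have h := carnotLen_mul hn y (y⁻¹ * x)
    rw [mul_inv_cancel_left] at h
    have h2 := carnotLen_inv hn (x⁻¹ * y)
    rw [mul_inv_rev, inv_inv] at h2
    linarith
  · have h := carnotLen_mul hn x (x⁻¹ * y)
    rw [mul_inv_cancel_left] at h
    linarith

lemma dist_nonneg' (hn : 1 ≤ n) (x y : N n) : 0 ≤ carnotDist x y := carnotLen_nonneg hn _

lemma sqrt_le_half (t : ℝ) (ht : 0 ≤ t) (a : ℝ) (ha : 0 < a) :
    Real.sqrt t ≤ t / (2 * a) + a / 2 := by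
  have h := Real.sq_sqrt ht
  have h2 : 0 ≤ (Real.sqrt t - a) ^ 2 := sq_nonneg _
  have h3 : Real.sqrt t * (2 * a) ≤ t + a ^ 2 := by nlinarith
  have h4 : Real.sqrt t ≤ (t + a ^ 2) / (2 * a) := by
    rw [le_div_iff₀ (by positivity)]; exact h3
  have h5 : (t + a ^ 2) / (2 * a) = t / (2 * a) + a / 2 := by field_simp
  linarith

lemma F_upper (hn : 1 ≤ n) (x y : N n) :
    carnotDist (F x) (F y) ≤ (5 / 2) * carnotDist x y + 3 / 2 := by
  have h0 := dist_nonneg' hn x y
  have h1 : carnotDist (F x) (F y) ≤ carnotDist x y + 3 * Real.sqrt (carnotDist x y) := by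
    unfold carnotDist
    rw [F_diff]
    have h := carnotLen_mul hn (x⁻¹ * y) (cen ((carnotLen y - carnotLen x) • u))
    have h2 := len_cen_smul hn (carnotLen y - carnotLen x)
    have h3 := Real.sqrt_le_sqrt (len_sub_le hn x y)
    unfold carnotDist at h3
    linarith
  have h2 := sqrt_le_half (carnotDist x y) h0 1 one_pos
  linarith

lemma F_lower (hn : 1 ≤ n) (x y : N n) :
    carnotDist x y / 2 - 9 / 2 ≤ carnotDist (F x) (F y) := by
  have h0 := dist_nonneg' hn x y
  have h1 : carnotDist x y ≤ carnotDist (F x) (F y) + 3 * Real.sqrt (carnotDist x y) := by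
    have e : x⁻¹ * y = ((F x)⁻¹ * F y) * (cen (-((carnotLen y - carnotLen x) • u))) := by
      rw [F_diff, mul_assoc, cen_mul, add_neg_cancel]
      have : (cen 0 : N n) = 1 := rfl
      rw [this, mul_one]
    have h := carnotLen_mul hn ((F x)⁻¹ * F y) (cen (-((carnotLen y - carnotLen x) • u)))
    rw [← e, ← cen_inv, carnotLen_inv hn] at h
    have h2 := len_cen_smul hn (carnotLen y - carnotLen x)
    have h3 := Real.sqrt_le_sqrt (len_sub_le hn x y)
    unfold carnotDist at *
    linarith
  have h2 := sqrt_le_half (carnotDist x y) h0 3 (by norm_num)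
  linarith

lemma F_surj (hn : 1 ≤ n) (y : N n) : ∃ x, carnotDist (F x) y ≤ 6 := by
  set g : ℕ → ℝ := fun k => carnotLen (y * cen ((-(k : ℝ)) • u)) - k with hg
  have hstep : ∀ k, g k ≤ g (k + 1) + 4 := by
    intro k
    have e : y * cen ((-(k : ℝ)) • u) = (y * cen ((-((k + 1 : ℕ) : ℝ)) • u)) * cen ((1 : ℝ) • u) := by
      rw [mul_assoc, cen_mul, ← add_smul]
      congr 3
      push_cast; ring
    have h := carnotLen_mul hn (y * cen ((-((k + 1 : ℕ) : ℝ)) • u)) (cen ((1 : ℝ) • u))
    rw [← e] at h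
    have h2 := len_cen_smul (n := n) hn 1
    rw [abs_one, Real.sqrt_one] at h2
    simp only [hg]
    push_cast at h ⊢
    linarith
  have hneg : ∃ k, g k < 0 := by
    obtain ⟨k, hk⟩ := exists_nat_gt (2 * carnotLen y + 9)
    refine ⟨k, ?_⟩
    have h := carnotLen_mul hn y (cen ((-(k : ℝ)) • u))
    have h2 := len_cen_smul (n := n) hn (-(k : ℝ))
    rw [abs_neg, abs_of_nonneg (Nat.cast_nonneg k)] at h2
    have h3 := sqrt_le_half (k : ℝ) (Nat.cast_nonneg k) 3 (by norm_num)
    simp only [hg]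
    linarith
  classical
  have hk := Nat.find_spec hneg
  set k := Nat.find hneg with hkdef
  have hk0 : k ≠ 0 := by
    intro h0
    rw [h0] at hk
    simp only [hg] at hk
    have := carnotLen_nonneg hn (y * cen ((-((0 : ℕ) : ℝ)) • u))
    simp at hk this
    linarith
  obtain ⟨j, hj⟩ := Nat.exists_eq_succ_of_ne_zero hk0
  have hj1 : ¬ g j < 0 := Nat.find_min hneg (by omega)
  have hj2 := hstep j
  have hk' : g (j + 1) < 0 := by
    have : k = j + 1 := hj
    rwa [this] at hk
  push Not at hj1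
  refine ⟨y * cen ((-(j : ℝ)) • u), ?_⟩
  have e : (F (y * cen ((-(j : ℝ)) • u)))⁻¹ * y = (cen (g j • u))⁻¹ := by
    unfold F
    rw [mul_assoc, cen_mul, ← add_smul]
    have : (-(j : ℝ)) + carnotLen (y * cen ((-(j : ℝ)) • u)) = g j := by simp only [hg]; ring
    rw [this, mul_inv_rev, cen_inv, mul_assoc, inv_mul_cancel, mul_one]
  unfold carnotDist
  rw [e, carnotLen_inv hn]
  refine (len_cen_smul hn (g j)).trans ?_
  rw [abs_of_nonneg hj1]
  have : Real.sqrt (g j) ≤ 2 := by
    rw [Real.sqrt_le_left (by norm_num)]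
    linarith
  linarith

/-- `d` is a metric comparable with the Carnot metric at large scale (the identity is a
quasi-isometry from `carnotDist` to `d`); this holds for the Carnot metric itself and for every
left-invariant Riemannian metric. -/
def LargeScaleEquivalent (d : N n → N n → ℝ) : Prop :=
  ∃ L A : ℝ, 1 ≤ L ∧ 0 ≤ A ∧ ∀ x y, carnotDist x y / L - A ≤ d x y ∧ d x y ≤ L * carnotDist x y + A

lemma F_qi (hn : 1 ≤ n) (d : N n → N n → ℝ) (hd : LargeScaleEquivalent d) :
    IsQuasiIsometry d F := by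
  obtain ⟨L, A, hL, hA, h0⟩ := hd
  have hLpos : 0 < L := by linarith
  set i : ℝ := 1 / L with hi
  have hiL : i * L = 1 := by rw [hi]; field_simp
  have hipos : 0 < i := by rw [hi]; positivity
  have hi1 : i ≤ 1 := by rw [hi, div_le_one hLpos]; exact hL
  have hlow : ∀ x y, i * carnotDist x y - A ≤ d x y := by
    intro x y
    have := (h0 x y).1
    rw [div_eq_mul_one_div, mul_comm] at this
    exact this
  have hρ1 : ∀ x y, carnotDist x y ≤ L * (d x y + A) := by
    intro x y
    have h1 := hlow x y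
    have h2 : L * (i * carnotDist x y) ≤ L * (d x y + A) := by
      apply mul_le_mul_of_nonneg_left _ hLpos.le
      linarith
    have h3 : L * (i * carnotDist x y) = carnotDist x y := by
      rw [← mul_assoc, mul_comm L i, hiL, one_mul]
    linarith
  have hρ2 : ∀ x y, i * (d x y - A) ≤ carnotDist x y := by
    intro x y
    have h1 := (h0 x y).2
    have h2 : i * (d x y - A) ≤ i * (L * carnotDist x y) := by
      apply mul_le_mul_of_nonneg_left _ hipos.le
      linarith
    have h3 : i * (L * carnotDist x y) = carnotDist x y := by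
      rw [← mul_assoc, hiL, one_mul]
    linarith
  have hdneg : ∀ x y, -A ≤ d x y := by
    intro x y
    have h1 := hlow x y
    have h2 := mul_nonneg hipos.le (dist_nonneg' hn x y)
    linarith
  have hLL : 1 ≤ L ^ 2 := by nlinarith
  have hLL' : L ≤ L ^ 2 := by nlinarith
  refine ⟨(5 / 2) * L ^ 2, 100 * L ^ 2 * (A + 1), by linarith, by positivity, ?_, ?_⟩
  · intro x y
    constructor
    · have h1 := F_lower hn x y
      have h2 := hlow (F x) (F y)
      have h3 := hρ2 x y
      have h4 : i * (i * (d x y - A) / 2 - 9 / 2) ≤ i * carnotDist (F x) (F y) := by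
        apply mul_le_mul_of_nonneg_left _ hipos.le
        linarith
      have h5 : d x y / ((5 / 2) * L ^ 2) = (2 / 5) * (i ^ 2 * d x y) := by
        rw [hi]; field_simp
      rw [h5]
      have hii : i ^ 2 ≤ 1 := by nlinarith
      have h6 : i ^ 2 * (-A) ≤ i ^ 2 * d x y :=
        mul_le_mul_of_nonneg_left (hdneg x y) (by positivity)
      have h7 : i ^ 2 * A ≤ A := by nlinarith
      have h8 : i * (i * (d x y - A) / 2 - 9 / 2) =
          (1 / 2) * (i ^ 2 * d x y) - (1 / 2) * (i ^ 2 * A) - (9 / 2) * i := by ring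
      have h9 : (A + 1) ≤ L ^ 2 * (A + 1) := by nlinarith
      nlinarith
    · have h1 := F_upper hn x y
      have h2 := (h0 (F x) (F y)).2
      have h3 := hρ1 x y
      have h4 : L * carnotDist (F x) (F y) ≤ L * ((5 / 2) * (L * (d x y + A)) + 3 / 2) := by
        apply mul_le_mul_of_nonneg_left _ hLpos.le
        linarith
      have h5 : L * ((5 / 2) * (L * (d x y + A)) + 3 / 2) =
        (5 / 2) * L ^ 2 * d x y + (5 / 2) * (L ^ 2 * A) + (3 / 2) * L := by ring
      have h6 : A ≤ L ^ 2 * A := by nlinarith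
      have h7 : 0 ≤ L ^ 2 * A := by positivity
      have h8 : 100 * L ^ 2 * (A + 1) = 100 * (L ^ 2 * A) + 100 * L ^ 2 := by ring
      linarith
  · intro y
    obtain ⟨x, hx⟩ := F_surj hn y
    refine ⟨x, ?_⟩
    have h1 := (h0 (F x) y).2
    have h2 : L * carnotDist (F x) y ≤ L * 6 := mul_le_mul_of_nonneg_left hx hLpos.le
    have h6 : A ≤ L ^ 2 * A := by nlinarith
    have h7 : 0 ≤ L ^ 2 * A := by positivity
    have h8 : 100 * L ^ 2 * (A + 1) = 100 * (L ^ 2 * A) + 100 * L ^ 2 := by ring
    linarith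

/-- no linear function of `t` stays below a square root -/
lemma zero_of_sqrt_growth (a b c : ℝ) (ha : 0 ≤ a) (h : ∀ t : ℝ, 1 ≤ t → t * a ≤ b + c * Real.sqrt t) :
    a = 0 := by
  by_contra hne
  have hpos : 0 < a := lt_of_le_of_ne ha (Ne.symm hne)
  set s : ℝ := (|b| + |c| + 1) / a + 1 with hs
  have hs1 : 1 ≤ s := by
    have : 0 ≤ (|b| + |c| + 1) / a := by positivity
    linarith
  have h1 := h (s ^ 2) (by nlinarith)
  rw [Real.sqrt_sq (by linarith)] at h1
  have h2 : s * a = |b| + |c| + 1 + a := by rw [hs]; field_simp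
  have h3 : b ≤ |b| * s := by
    have := le_abs_self b
    nlinarith [abs_nonneg b]
  have h4 : c * s ≤ |c| * s := by
    have := le_abs_self c
    nlinarith
  have h5 : s ^ 2 * a = s * (s * a) := by ring
  rw [h5, h2] at h1
  nlinarith

lemma not_finiteDistance (hn : 1 ≤ n) (h : N n → N n) (hh : FibAff h) (C : ℝ)
    (hC : ∀ x, carnotDist (F x) (h x) ≤ C) : False := by
  obtain ⟨B, a, c, hB⟩ := hh
  have hnp : (0 : ℝ) < n := by exact_mod_cast hn
  -- the vertical component of the difference on the centre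
  have hkey : ∀ z : ImH, ‖B z - z + c 0 - carnotLen (cen z : N n) • u‖ ≤ (n : ℝ) * C ^ 2 := by
    intro z
    have h1 := hC (cen z)
    have h2 := norm_c_le hn ((F (cen z))⁻¹ * h (cen z))
    have h3 : ((F (cen z))⁻¹ * h (cen z)).c = B z - z + c 0 - carnotLen (cen z : N n) • u := by
      rw [hB]
      simp only [F, mul_c, inv_c, inv_h, mul_h, cen, add_zero, neg_zero, bracket_zero_left,
        smul_zero]
      abel
    rw [h3] at h2
    have h4 : (carnotLen ((F (cen z))⁻¹ * h (cen z))) ^ 2 ≤ C ^ 2 :=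
      pow_le_pow_left₀ (carnotLen_nonneg hn _) h1 2
    have h5 := mul_le_mul_of_nonneg_left h4 hnp.le
    linarith
  -- `B u = u`
  have hlen : ∀ t : ℝ, 0 ≤ t → carnotLen (cen (t • u) : N n) ≤ 3 * Real.sqrt t := by
    intro t ht
    have := len_cen_smul (n := n) hn t
    rwa [abs_of_nonneg ht] at this
  have hBu : ‖B u - u‖ = 0 := by
    apply zero_of_sqrt_growth _ ((n : ℝ) * C ^ 2 + ‖c 0‖) 3 (norm_nonneg _)
    intro t ht
    have h1 := hkey (t • u)
    have h2 : t • (B u - u) = (B (t • u) - t • u + c 0 - carnotLen (cen (t • u) : N n) • u)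
        - c 0 + carnotLen (cen (t • u) : N n) • u := by
      rw [map_smul, smul_sub]
      abel
    have h3 : ‖t • (B u - u)‖ = t * ‖B u - u‖ := by
      rw [norm_smul, Real.norm_eq_abs, abs_of_nonneg (by linarith)]
    have h4 := norm_add_le ((B (t • u) - t • u + c 0 - carnotLen (cen (t • u) : N n) • u)
        - c 0) (carnotLen (cen (t • u) : N n) • u)
    have h5 := norm_sub_le (B (t • u) - t • u + c 0 - carnotLen (cen (t • u) : N n) • u) (c 0)
    have h6 : ‖carnotLen (cen (t • u) : N n) • u‖ = carnotLen (cen (t • u) : N n) := by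
      rw [norm_smul, norm_u, mul_one, Real.norm_eq_abs, abs_of_nonneg (carnotLen_nonneg hn _)]
    rw [← h2, h3, h6] at h4
    have h7 := hlen t (by linarith)
    linarith
  have hBu' : B u = u := by
    rw [norm_eq_zero, sub_eq_zero] at hBu
    exact hBu
  -- so the lengths of central elements are bounded: contradiction
  have hbd : ∀ t : ℝ, carnotLen (cen (t • u) : N n) ≤ (n : ℝ) * C ^ 2 + ‖c 0‖ := by
    intro t
    have h1 := hkey (t • u)
    rw [map_smul, hBu', sub_self, zero_add] at h1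
    have h2 := norm_sub_le (c 0) (c 0 - carnotLen (cen (t • u) : N n) • u)
    have h3 : c 0 - (c 0 - carnotLen (cen (t • u) : N n) • u) = carnotLen (cen (t • u) : N n) • u := by
      abel
    have h6 : ‖carnotLen (cen (t • u) : N n) • u‖ = carnotLen (cen (t • u) : N n) := by
      rw [norm_smul, norm_u, mul_one, Real.norm_eq_abs, abs_of_nonneg (carnotLen_nonneg hn _)]
    rw [h3, h6] at h2
    linarith
  set M : ℝ := (n : ℝ) * C ^ 2 + ‖c 0‖ with hM
  have hM0 : 0 ≤ M := (carnotLen_nonneg hn _).trans (hbd 0)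
  have h1 := norm_c_le hn (cen (((n : ℝ) * M ^ 2 + 1) • u) : N n)
  have h2 : ‖(cen (((n : ℝ) * M ^ 2 + 1) • u) : N n).c‖ = (n : ℝ) * M ^ 2 + 1 := by
    show ‖((n : ℝ) * M ^ 2 + 1) • u‖ = _
    rw [norm_smul, norm_u, mul_one, Real.norm_eq_abs, abs_of_nonneg (by positivity)]
  rw [h2] at h1
  have h3 : (carnotLen (cen (((n : ℝ) * M ^ 2 + 1) • u) : N n)) ^ 2 ≤ M ^ 2 :=
    pow_le_pow_left₀ (carnotLen_nonneg hn _) (hbd _) 2
  have h4 := mul_le_mul_of_nonneg_left h3 hnp.le
  linarith

/-- **Negative answer to Q1 of MP_afcf00_al.** For every `n ≥ 1` the quaternionic Heisenberg group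
`N`, with the Carnot metric (or any metric large scale equivalent to it, such as a left-invariant
Riemannian metric), has a self-quasi-isometry that is at infinite distance from every generalized
affine map. -/
theorem result (n : ℕ) (hn : 1 ≤ n) (d : N n → N n → ℝ) (hd : LargeScaleEquivalent d) :
    ∃ F : N n → N n, IsQuasiIsometry d F ∧
      ∀ h ∈ generalizedAffineGroup n, ¬ FiniteDistance d F h := by
  refine ⟨F, F_qi hn d hd, ?_⟩
  rintro h hh ⟨C, hC⟩
  obtain ⟨L, A, hL, hA, h0⟩ := hd
  have hLpos : 0 < L := by linarith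
  refine not_finiteDistance hn h (fibAff_gen h hh).1 (L * (C + A)) fun x => ?_
  have h1 := (h0 (F x) (h x)).1
  have h2 := hC x
  have h3 : carnotDist (F x) (h x) / L ≤ C + A := by linarith
  rw [div_le_iff₀ hLpos] at h3
  linarith

end Pool.Agent.Results.MP_afcf00_al.QuasiIsometryNotAffine
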